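import Pool.Agent.Helper30.GA.Defs
import Pool.Agent.Helper69.LZ.Twist

/-!
# Two permutation braids in the differences

For `g_j = L_j - t L_(j-1)` (numbered from `0`) the crossing of the strands at the positions `a`,
`a + 1` is `(g_a, g_(a+1)) ↦ (g_(a+1), t g_a + (1 - t) g_(a+1))`. The word `vb k m` moves the entry
at the position `k + 1` to the position `k + 1 - m`. From these recursions: two permutation braids
multiply the maximum of the `|g_j|` by at most `4 - 3 ρ^n - 2 (1 - ρ) n ρ^n`.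
-/

set_option autoImplicit false

namespace Pool.Agent.Helper49.GA

open Pool.Agent.Helper69.LZ Pool.Agent.Helper30.GA

/-- the entry at the position `k + 1` is inserted at the position `k + 1 - m` -/
noncomputable def ins (t : ℂ) (k m : ℕ) (G : ℕ → ℂ) : ℕ → ℂ := fun j =>
  if j < k + 1 - m then G j else if j = k + 1 - m then G (k + 1)
    else if j ≤ k + 1 then t * G (j - 1) + (1 - t) * G (k + 1) else G j

/-- one crossing -/
theorem gg_sg_self (t : ℂ) (a : ℕ) (L : ℕ → ℂ) : gg t (sg t (a + 1) L) a = gg t L (a + 1) := by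
  unfold gg sg
  rw [Function.update_self, Function.update_of_ne (by omega : a ≠ a + 1), Nat.add_sub_cancel]
  ring

theorem gg_sg_succ (t : ℂ) (a : ℕ) (L : ℕ → ℂ) :
    gg t (sg t (a + 1) L) (a + 1) = t * gg t L a + (1 - t) * gg t L (a + 1) := by
  unfold gg sg
  rw [Function.update_self, Function.update_of_ne (by omega : a + 1 + 1 ≠ a + 1),
    Nat.add_sub_cancel]
  ring

theorem gg_sg_ne (t : ℂ) {a j : ℕ} (L : ℕ → ℂ) (h : j ≠ a) (h' : j ≠ a + 1) :
    gg t (sg t (a + 1) L) j = gg t L j := by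
  unfold gg sg
  rw [Function.update_of_ne (by omega : j + 1 ≠ a + 1), Function.update_of_ne h']

/-- `vb k m` in the differences -/
theorem gg_vb (t : ℂ) (k : ℕ) (L : ℕ → ℂ) : ∀ m : ℕ, m ≤ k + 1 → ∀ j : ℕ,
    gg t (run t (vb k m) L) j = ins t k m (gg t L) j := by
  intro m
  induction m with
  | zero =>
    intro _ j
    rw [vb_zero, run_nil]
    unfold ins
    split_ifs with h1 h2 h3
    · rfl
    · rw [h2]
      rfl
    · omega
    · rfl
  | succ m ih =>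
    intro hm j
    have ih' := ih (by omega)
    rw [vb_succ, run_append, run_cons, run_nil]
    by_cases h1 : j = k - m
    · subst h1
      rw [gg_sg_self, ih']
      unfold ins
      rw [if_neg (by omega), if_pos (by omega), if_neg (by omega), if_pos (by omega)]
    · by_cases h2 : j = k - m + 1
      · subst h2
        rw [gg_sg_succ, ih', ih']
        unfold ins
        rw [if_pos (by omega : k - m < k + 1 - m), if_neg (by omega : ¬ k - m + 1 < k + 1 - m),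
          if_pos (by omega : k - m + 1 = k + 1 - m), if_neg (by omega), if_neg (by omega),
          if_pos (by omega), Nat.add_sub_cancel]
      · rw [gg_sg_ne t _ h1 h2, ih']
        unfold ins
        rw [if_congr (by omega : j < k + 1 - m ↔ j < k + 1 - (m + 1)) rfl rfl,
          if_congr (by omega : j = k + 1 - m ↔ j = k + 1 - (m + 1)) rfl rfl]

section bounds

variable {t : ℂ}

/-- one step: `b` bounds the entries up to the position `k`, `h` the next one. -/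
theorem ins_le (hk : ‖1 - t‖ ≤ 2 * (1 - ‖t‖)) {k m : ℕ} (hm : m ≤ k + 1) {G : ℕ → ℂ}
    {b b' : ℕ → ℝ} {h : ℝ} (hb : ∀ j, j ≤ k → ‖G j‖ ≤ b j) (hh : ‖G (k + 1)‖ ≤ h)
    (h1 : ∀ j, j ≤ k → b j ≤ b' j) (h2 : ∀ j, j ≤ k + 1 → h ≤ b' j)
    (h3 : ∀ j, j ≤ k → ‖t‖ * b j + 2 * (1 - ‖t‖) * h ≤ b' (j + 1)) :
    ∀ j, j ≤ k + 1 → ‖ins t k m G j‖ ≤ b' j := by
  intro j hj
  unfold ins
  split_ifs with c1 c2
  · exact (hb j (by omega)).trans (h1 j (by omega))
  · exact hh.trans (h2 j hj)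
  · obtain ⟨i, rfl⟩ : ∃ i, j = i + 1 := ⟨j - 1, by omega⟩
    rw [Nat.add_sub_cancel]
    have e1 : ‖t * G i + (1 - t) * G (k + 1)‖ ≤ ‖t‖ * b i + 2 * (1 - ‖t‖) * h := by
      refine (norm_add_le _ _).trans ?_
      rw [norm_mul, norm_mul]
      have hh0 : 0 ≤ ‖G (k + 1)‖ := norm_nonneg _
      have u1 : ‖t‖ * ‖G i‖ ≤ ‖t‖ * b i :=
        mul_le_mul_of_nonneg_left (hb i (by omega)) (norm_nonneg t)
      have u2 : ‖1 - t‖ * ‖G (k + 1)‖ ≤ 2 * (1 - ‖t‖) * h :=
        mul_le_mul hk hh hh0 ((norm_nonneg _).trans hk)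
      linarith
    exact e1.trans (h3 i (by omega))

theorem ins_gt {k m j : ℕ} {G : ℕ → ℂ} (hj : k + 1 < j) : ins t k m G j = G j := by
  unfold ins
  rw [if_neg (by omega), if_neg (by omega), if_neg (by omega)]

/-- `(1 - x) i x^i ≤ 1 - x^i` -/
theorem bern {x : ℝ} (h0 : 0 ≤ x) (h1 : x ≤ 1) (i : ℕ) : (1 - x) * i * x ^ i ≤ 1 - x ^ i := by
  induction i with
  | zero => simp
  | succ i ih =>
    have hp : 0 ≤ x ^ i := pow_nonneg h0 i
    have hp1 : x ^ i ≤ 1 := pow_le_one₀ h0 h1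
    rw [pow_succ]
    push_cast
    nlinarith [mul_nonneg (mul_nonneg (sub_nonneg.2 h1) (Nat.cast_nonneg (α := ℝ) i)) hp,
      mul_nonneg (mul_nonneg (mul_nonneg (sub_nonneg.2 h1) (Nat.cast_nonneg (α := ℝ) i)) hp)
        (sub_nonneg.2 h1), mul_nonneg (sub_nonneg.2 h1) hp,
      mul_nonneg (mul_nonneg (sub_nonneg.2 h1) hp) (sub_nonneg.2 h1)]

/-- one permutation braid -/
theorem one_pass (ht : ‖t‖ < 1) (hk : ‖1 - t‖ ≤ 2 * (1 - ‖t‖)) {c : ℕ → ℕ}
    (hc : ∀ k, c k ≤ k + 1) {L : ℕ → ℂ} {M : ℝ} : ∀ n : ℕ, (∀ j ≤ n, ‖gg t L j‖ ≤ M) →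
    (∀ j ≤ n, ‖gg t (run t (sw n c) L) j‖ ≤ (2 - ‖t‖ ^ j) * M) ∧
      ∀ j, n < j → gg t (run t (sw n c) L) j = gg t L j := by
  intro n
  have r0 := norm_nonneg t
  induction n with
  | zero =>
    intro hM
    refine ⟨fun j hj => ?_, fun j _ => by rw [sw_zero, run_nil]⟩
    obtain rfl : j = 0 := by omega
    rw [sw_zero, run_nil, pow_zero]
    have := hM 0 le_rfl
    linarith
  | succ n ih =>
    intro hM
    obtain ⟨i1, i2⟩ := ih fun j hj => hM j (by omega)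
    have hM0 : 0 ≤ M := (norm_nonneg _).trans (hM 0 (by omega))
    constructor
    · rw [sw_succ, run_append]
      intro j hj
      rw [gg_vb t n _ _ (hc n)]
      refine ins_le hk (hc n) (b' := fun j => (2 - ‖t‖ ^ j) * M) (h := M) i1
        (by rw [i2 _ (by omega)]; exact hM _ le_rfl) (fun j _ => le_rfl) (fun j _ => ?_)
        (fun j _ => ?_) j hj
      · have : ‖t‖ ^ j ≤ 1 := pow_le_one₀ r0 ht.le
        nlinarith
      · rw [pow_succ]
        nlinarith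
    · intro j hj
      rw [sw_succ, run_append, gg_vb t n _ _ (hc n), ins_gt (by omega), i2 j (by omega)]

/-- the second permutation braid -/
theorem second_pass (ht : ‖t‖ < 1) (hk : ‖1 - t‖ ≤ 2 * (1 - ‖t‖)) {c : ℕ → ℕ}
    (hc : ∀ k, c k ≤ k + 1) {L : ℕ → ℂ} {M : ℝ} : ∀ n : ℕ,
    (∀ j ≤ n, ‖gg t L j‖ ≤ (2 - ‖t‖ ^ j) * M) →
    (∀ j ≤ n, ‖gg t (run t (sw n c) L) j‖ ≤
      (4 - 2 * ‖t‖ ^ j - ‖t‖ ^ n - 2 * (1 - ‖t‖) * j * ‖t‖ ^ n) * M) ∧
      ∀ j, n < j → gg t (run t (sw n c) L) j = gg t L j := by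
  intro n
  have r0 := norm_nonneg t
  induction n with
  | zero =>
    intro hM
    refine ⟨fun j hj => ?_, fun j _ => by rw [sw_zero, run_nil]⟩
    obtain rfl : j = 0 := by omega
    rw [sw_zero, run_nil, pow_zero]
    have := hM 0 le_rfl
    rw [pow_zero] at this
    push_cast
    linarith
  | succ n ih =>
    intro hM
    obtain ⟨i1, i2⟩ := ih fun j hj => hM j (by omega)
    have hM0 : 0 ≤ M := by
      have := (norm_nonneg _).trans (hM 0 (by omega))
      rw [pow_zero] at this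
      linarith
    constructor
    · rw [sw_succ, run_append]
      intro j hj
      rw [gg_vb t n _ _ (hc n)]
      have hn0 : 0 ≤ ‖t‖ ^ n := pow_nonneg r0 n
      refine ins_le hk (hc n) (b' := fun j => (4 - 2 * ‖t‖ ^ j - ‖t‖ ^ (n + 1) -
        2 * (1 - ‖t‖) * j * ‖t‖ ^ (n + 1)) * M) (h := (2 - ‖t‖ ^ (n + 1)) * M) i1
        (by rw [i2 _ (by omega)]; exact hM _ le_rfl) (fun j _ => ?_) (fun j hj => ?_)
        (fun j _ => ?_) j hj
      · refine mul_le_mul_of_nonneg_right ?_ hM0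
        have e : ‖t‖ ^ (n + 1) = ‖t‖ ^ n * ‖t‖ := pow_succ _ _
        have e1 : ‖t‖ ^ (n + 1) ≤ ‖t‖ ^ n := by
          rw [e]
          nlinarith
        have e2 : (1 - ‖t‖) * j * ‖t‖ ^ (n + 1) ≤ (1 - ‖t‖) * j * ‖t‖ ^ n :=
          mul_le_mul_of_nonneg_left e1 (mul_nonneg (sub_nonneg.2 ht.le) (Nat.cast_nonneg j))
        linarith
      · refine mul_le_mul_of_nonneg_right ?_ hM0
        have b1 := bern r0 ht.le j
        have e1 : ‖t‖ ^ (n + 1) ≤ ‖t‖ ^ j := pow_le_pow_of_le_one r0 ht.le hj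
        have e2 : (1 - ‖t‖) * j * ‖t‖ ^ (n + 1) ≤ (1 - ‖t‖) * j * ‖t‖ ^ j :=
          mul_le_mul_of_nonneg_left e1 (mul_nonneg (sub_nonneg.2 ht.le) (Nat.cast_nonneg j))
        linarith
      · refine le_of_eq ?_
        push_cast
        ring
    · intro j hj
      rw [sw_succ, run_append, gg_vb t n _ _ (hc n), ins_gt (by omega), i2 j (by omega)]

/-- **Two permutation braids.** -/
theorem two_pass (ht : ‖t‖ < 1) (hk : ‖1 - t‖ ≤ 2 * (1 - ‖t‖)) {n : ℕ} {c c' : ℕ → ℕ}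
    (hc : ∀ k, c k ≤ k + 1) (hc' : ∀ k, c' k ≤ k + 1) {L : ℕ → ℂ} {M : ℝ}
    (hM : ∀ j < n + 1, ‖gg t L j‖ ≤ M) : ∀ j < n + 1,
    ‖gg t (run t (sw n c ++ sw n c') L) j‖ ≤
      (4 - 3 * ‖t‖ ^ n - 2 * (1 - ‖t‖) * n * ‖t‖ ^ n) * M := by
  intro j hj
  have r0 := norm_nonneg t
  have hM0 : 0 ≤ M := (norm_nonneg _).trans (hM 0 (by omega))
  obtain ⟨a1, -⟩ := one_pass ht hk hc n fun j hj => hM j (by omega)
  obtain ⟨b1, -⟩ := second_pass ht hk hc' n a1
  rw [run_append]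
  refine (b1 j (by omega)).trans (mul_le_mul_of_nonneg_right ?_ hM0)
  obtain ⟨i, rfl⟩ : ∃ i, n = j + i := ⟨n - j, by omega⟩
  have e := bern r0 ht.le i
  have e0 : 0 ≤ ‖t‖ ^ j := pow_nonneg r0 j
  have e1 : ‖t‖ ^ j ≤ 1 := pow_le_one₀ r0 ht.le
  have e2 : (1 - ‖t‖) * i * ‖t‖ ^ (j + i) ≤ ‖t‖ ^ j - ‖t‖ ^ (j + i) := by
    rw [pow_add]
    have := mul_le_mul_of_nonneg_left e e0
    linarith
  push_cast
  linarith

end bounds

end Pool.Agent.Helper49.GA
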