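import Pool.Agent.Helper12.GA.Normal
import Pool.Agent.Helper49.GA.TwoPass
import Pool.Agent.Helper85.GA.Flip

/-!
# Many half twists: the case of the differences

`F = Δ ^ p w_1 ⋯ w_l` with permutation braids `w_i`, `l ≤ 2 p`. The square of `F` is a scalar of
modulus `ρ ^ (N p)` times at most `2 p` pairs of permutation braids, each pair of norm at most `A`.
If `A ^ 2 ρ ^ N < 1`, then `F` has no fixed vectors.
-/

set_option autoImplicit false

namespace Pool.Agent.Helper49.GA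

open Pool.Agent.Helper69.LZ Pool.Agent.Helper30.GA Pool.Agent.Helper12.GA Pool.Agent.Helper85.GA

variable {t : ℂ} {n : ℕ}

/-- the norm of a pair of permutation braids -/
noncomputable def AA (r : ℝ) (n : ℕ) : ℝ := 4 - 3 * r ^ n - 2 * (1 - r) * n * r ^ n

theorem one_le_AA {r : ℝ} (h0 : 0 ≤ r) (h1 : r ≤ 1) (n : ℕ) : 1 ≤ AA r n := by
  have e := bern h0 h1 n
  have e1 : r ^ n ≤ 1 := pow_le_one₀ h0 h1
  unfold AA
  nlinarith

theorem many (ht : ‖t‖ < 1) (hk : ‖1 - t‖ ≤ 2 * (1 - ‖t‖)) : ∀ (q : ℕ) (S : List (List ℕ)),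
    (∀ w ∈ S, (∀ a ∈ w, a < n) ∧ Once id w) → S.length ≤ 2 * q → ∀ (L : ℕ → ℂ) (M : ℝ),
    (∀ j < n + 1, ‖gg t L j‖ ≤ M) → ∀ j < n + 1,
      ‖gg t (run t S.flatten L) j‖ ≤ AA ‖t‖ n ^ q * M := by
  have hA := one_le_AA (norm_nonneg t) ht.le n
  intro q
  induction q with
  | zero =>
    intro S _ hl L M hM j hj
    have e : S = [] := List.eq_nil_of_length_eq_zero (by omega)
    rw [e, List.flatten_nil, run_nil, pow_zero, one_mul]
    exact hM j hj
  | succ q ih =>
    intro S hS hl L M hM j hj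
    have hM0 : 0 ≤ M := (norm_nonneg _).trans (hM 0 (by omega))
    match S, hS, hl with
    | [], _, _ =>
      rw [List.flatten_nil, run_nil]
      refine (hM j hj).trans ?_
      have : 1 ≤ AA ‖t‖ n ^ (q + 1) := one_le_pow₀ hA
      nlinarith
    | [w], hS, _ =>
      obtain ⟨c, hc, e⟩ := normal (hS w (by simp)).1 (hS w (by simp)).2
      obtain ⟨c', hc', e'⟩ := normal (n := n) (w := []) (by simp) trivial
      have e2 := two_pass ht hk hc hc' hM
      rw [List.flatten_cons, List.flatten_nil, List.append_nil, e]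
      rw [run_append, ← e' t _, run_nil] at e2
      refine (e2 j hj).trans ?_
      change AA ‖t‖ n * M ≤ _
      refine mul_le_mul_of_nonneg_right ?_ hM0
      rw [pow_succ]
      have : 1 ≤ AA ‖t‖ n ^ q := one_le_pow₀ hA
      nlinarith
    | w :: w' :: S, hS, hl =>
      obtain ⟨c, hc, e⟩ := normal (hS w (by simp)).1 (hS w (by simp)).2
      obtain ⟨c', hc', e'⟩ := normal (hS w' (by simp)).1 (hS w' (by simp)).2
      have e2 := two_pass ht hk hc hc' hM
      rw [List.flatten_cons, List.flatten_cons, run_append, run_append, e, e', pow_succ, mul_assoc]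
      rw [run_append] at e2
      refine ih S (fun v hv => hS v (by simp [hv])) ?_ _ _ e2 j hj
      simp only [List.length_cons] at hl
      omega

theorem gg_smul (c : ℂ) (L : ℕ → ℂ) (j : ℕ) : gg t (fun i => c * L i) j = c * gg t L j := by
  unfold gg
  ring

/-- **Many half twists, the case of the differences.** -/
theorem caseB (ht : ‖t‖ < 1) (hk : ‖1 - t‖ ≤ 2 * (1 - ‖t‖))
    (hnum : (4 - 3 * ‖t‖ ^ n - 2 * (1 - ‖t‖) * n * ‖t‖ ^ n) ^ 2 * ‖t‖ ^ (n + 1) < 1) {p : ℕ}
    (hp : 0 < p) {R : List (List ℕ)} (hl : R.length ≤ 2 * p)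
    (hR : ∀ w ∈ R, (∀ a ∈ w, a < n) ∧ Once id w) {L : ℕ → ℂ} (h0 : L 0 = 0)
    (hn : ∀ j, n < j → L j = 0) (hfix : run t (tw n p ++ R.flatten) L = L) : L = 0 := by
  have hlt : ∀ a ∈ R.flatten, a < n := by
    intro a ha
    obtain ⟨w, hw, haw⟩ := List.mem_flatten.1 ha
    exact (hR w hw).1 a haw
  have hsq := run_square (t := t) hlt p h0 hn
  rw [run_append, hfix, hfix, iter_flip_flatten, ← List.flatten_append] at hsq
  set S : List (List ℕ) := R.map ((flip n)^[p]) ++ R with hSdef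
  have hS : ∀ w ∈ S, (∀ a ∈ w, a < n) ∧ Once id w := by
    intro w hw
    rw [hSdef, List.mem_append, List.mem_map] at hw
    rcases hw with ⟨v, hv, rfl⟩ | hw
    · exact ⟨iter_flip_lt (hR v hv).1 p, iter_once_flip (hR v hv).1 (hR v hv).2 p⟩
    · exact hR w hw
  have hSl : S.length ≤ 2 * (2 * p) := by
    rw [hSdef, List.length_append, List.length_map]
    omega
  obtain ⟨j₀, hj₀, hmax⟩ := (Finset.range (n + 1)).exists_max_image (fun j => ‖gg t L j‖)
    ⟨0, Finset.mem_range.2 (by omega)⟩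
  have hM : ∀ j < n + 1, ‖gg t L j‖ ≤ ‖gg t L j₀‖ := fun j hj => hmax j (Finset.mem_range.2 hj)
  have h1 := many ht hk (2 * p) S hS hSl L _ hM j₀ (Finset.mem_range.1 hj₀)
  have h2 : ‖gg t L j₀‖ ≤ (AA ‖t‖ n ^ 2 * ‖t‖ ^ (n + 1)) ^ p * ‖gg t L j₀‖ := by
    have e : gg t L j₀ = (t ^ (n + 1)) ^ p * gg t (run t S.flatten L) j₀ := by
      conv_lhs => rw [hsq]
      exact gg_smul _ _ _
    calc ‖gg t L j₀‖ = (‖t‖ ^ (n + 1)) ^ p * ‖gg t (run t S.flatten L) j₀‖ := by
          conv_lhs => rw [e, norm_mul, norm_pow, norm_pow]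
      _ ≤ (‖t‖ ^ (n + 1)) ^ p * (AA ‖t‖ n ^ (2 * p) * ‖gg t L j₀‖) :=
          mul_le_mul_of_nonneg_left h1 (by positivity)
      _ = _ := by
          rw [pow_mul, mul_pow]
          ring
  have h3 : (AA ‖t‖ n ^ 2 * ‖t‖ ^ (n + 1)) ^ p < 1 :=
    pow_lt_one₀ (by positivity) hnum (by omega)
  have h4 : ‖gg t L j₀‖ = 0 := by
    have h5 := norm_nonneg (gg t L j₀)
    nlinarith
  refine ext_gg (t := t) h0 rfl fun j => ?_
  have e0 : gg t (0 : ℕ → ℂ) j = 0 := by
    unfold gg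
    simp
  rw [e0]
  rcases lt_or_ge j (n + 1) with hj | hj
  · exact norm_eq_zero.1 (le_antisymm ((hM j hj).trans h4.le) (norm_nonneg _))
  · unfold gg
    rw [hn j (by omega), hn (j + 1) (by omega), mul_zero, sub_zero]

end Pool.Agent.Helper49.GA
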