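import Pool.Agent.Helper49.GA.CaseB

/-!
# The cost of a word in the norm of the differences

`Cst n t W c`: the word `W` multiplies the maximum of the `|g_j|` by at most `ρ ^ (-c/2)`, and by less
if `c > 0`. A layer (letters which are pairwise not adjacent) costs `2`, a pair of permutation braids
costs the number of strands `n + 1`.
-/

set_option autoImplicit false

namespace Pool.Agent.Helper49.GA

open Pool.Agent.Helper69.LZ Pool.Agent.Helper30.GA Pool.Agent.Helper12.GA Pool.Agent.Helper85.GA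

variable {t : ℂ} {n : ℕ}

/-- a word in letters which are pairwise not adjacent and different -/
def Layer (v : List ℕ) : Prop := v.Pairwise fun a b => a + 2 ≤ b ∨ b + 2 ≤ a

theorem gg_layer (t : ℂ) : ∀ (v : List ℕ), Layer v → ∀ (L : ℕ → ℂ) (j : ℕ), gg t (run t v L) j =
    if j ∈ v then gg t L (j + 1) else
      if ∃ a ∈ v, j = a + 1 then t * gg t L (j - 1) + (1 - t) * gg t L j else gg t L j := by
  intro v
  induction v with
  | nil => intro _ L j; simp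
  | cons a v ih =>
    intro hv L j
    obtain ⟨h1, h2⟩ := List.pairwise_cons.1 hv
    rw [run_cons, ih h2]
    by_cases hj : j ∈ v
    · have e := h1 j hj
      rw [if_pos hj, if_pos (List.mem_cons_of_mem _ hj), gg_sg_ne t L (by omega) (by omega)]
    · rw [if_neg hj]
      by_cases hj2 : ∃ b ∈ v, j = b + 1
      · obtain ⟨b, hb, rfl⟩ := hj2
        have e := h1 b hb
        rw [if_pos ⟨b, hb, rfl⟩, if_neg, if_pos ⟨b, List.mem_cons_of_mem _ hb, rfl⟩,
          Nat.add_sub_cancel, gg_sg_ne t L (by omega) (by omega), gg_sg_ne t L (by omega) (by omega)]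
        rw [List.mem_cons]
        rintro (h | h)
        · omega
        · exact hj h
      · rw [if_neg hj2]
        by_cases hja : j = a
        · subst hja
          rw [gg_sg_self, if_pos List.mem_cons_self]
        · by_cases hja1 : j = a + 1
          · subst hja1
            rw [gg_sg_succ, if_neg, if_pos ⟨a, List.mem_cons_self, rfl⟩, Nat.add_sub_cancel]
            rw [List.mem_cons]
            rintro (h | h)
            · omega
            · exact hj h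
          · rw [gg_sg_ne t L hja hja1, if_neg, if_neg]
            · rintro ⟨b, hb, rfl⟩
              rcases List.mem_cons.1 hb with rfl | hb
              · exact hja1 rfl
              · exact hj2 ⟨b, hb, rfl⟩
            · rw [List.mem_cons]
              rintro (h | h)
              · exact hja h
              · exact hj h

/-- A layer multiplies the norm by at most `2 - ρ`. -/
theorem layer_le (ht : ‖t‖ < 1) (hk : ‖1 - t‖ ≤ 2 * (1 - ‖t‖)) {v : List ℕ} (hv : Layer v)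
    (hlt : ∀ a ∈ v, a < n) {L : ℕ → ℂ} {M : ℝ} (hM : ∀ j < n + 1, ‖gg t L j‖ ≤ M) :
    ∀ j < n + 1, ‖gg t (run t v L) j‖ ≤ (2 - ‖t‖) * M := by
  intro j hj
  have hM0 : 0 ≤ M := (norm_nonneg _).trans (hM 0 (by omega))
  have hM1 : M ≤ (2 - ‖t‖) * M := by nlinarith
  rw [gg_layer t v hv]
  split_ifs with h1 h2
  · exact (hM (j + 1) (by have := hlt j h1; omega)).trans hM1
  · refine (norm_add_le _ _).trans ?_
    rw [norm_mul, norm_mul]
    have u1 := hM (j - 1) (by omega)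
    have u2 := hM j hj
    have u3 := mul_le_mul_of_nonneg_left u1 (norm_nonneg t)
    have u4 : ‖1 - t‖ * ‖gg t L j‖ ≤ 2 * (1 - ‖t‖) * M :=
      mul_le_mul hk u2 (norm_nonneg _) ((norm_nonneg _).trans hk)
    linarith
  · exact (hM j hj).trans hM1

/-- the cost `c` of a word -/
def Cst (n : ℕ) (t : ℂ) (W : List ℕ) (c : ℕ) : Prop :=
  ∃ K : ℝ, 0 ≤ K ∧ K ^ 2 * ‖t‖ ^ c ≤ 1 ∧ (0 < c → K ^ 2 * ‖t‖ ^ c < 1) ∧
    ∀ (L : ℕ → ℂ) (M : ℝ), (∀ j < n + 1, ‖gg t L j‖ ≤ M) →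
      ∀ j < n + 1, ‖gg t (run t W L) j‖ ≤ K * M

theorem Cst.nil : Cst n t [] 0 := by
  refine ⟨1, zero_le_one, by simp, fun h => absurd h (lt_irrefl 0), fun L M hM j hj => ?_⟩
  rw [run_nil, one_mul]
  exact hM j hj

theorem Cst.append {W W' : List ℕ} {c c' : ℕ} (h : Cst n t W c) (h' : Cst n t W' c') :
    Cst n t (W ++ W') (c + c') := by
  obtain ⟨K, k0, k1, k2, k3⟩ := h
  obtain ⟨K', k0', k1', k2', k3'⟩ := h'
  have e : (K' * K) ^ 2 * ‖t‖ ^ (c + c') = (K ^ 2 * ‖t‖ ^ c) * (K' ^ 2 * ‖t‖ ^ c') := by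
    rw [pow_add]
    ring
  have p1 : 0 ≤ K ^ 2 * ‖t‖ ^ c := by positivity
  have p2 : 0 ≤ K' ^ 2 * ‖t‖ ^ c' := by positivity
  refine ⟨K' * K, mul_nonneg k0' k0, ?_, fun hc => ?_, fun L M hM => ?_⟩
  · rw [e]
    exact mul_le_one₀ k1 p2 k1'
  · rw [e]
    rcases Nat.eq_zero_or_pos c with h0 | h0
    · have := k2' (by omega)
      nlinarith
    · have := k2 h0
      nlinarith
  · rw [mul_assoc]
    intro j hj
    rw [run_append]
    exact k3' _ _ (k3 L M hM) j hj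

theorem Cst.of_lt {W : List ℕ} {c : ℕ} {K : ℝ} (hK : 0 ≤ K) (h : K ^ 2 * ‖t‖ ^ c < 1)
    (h2 : ∀ (L : ℕ → ℂ) (M : ℝ), (∀ j < n + 1, ‖gg t L j‖ ≤ M) →
      ∀ j < n + 1, ‖gg t (run t W L) j‖ ≤ K * M) : Cst n t W c :=
  ⟨K, hK, h.le, fun _ => h, h2⟩

theorem Cst.layer (ht : ‖t‖ < 1) (hk : ‖1 - t‖ ≤ 2 * (1 - ‖t‖)) {v : List ℕ} (hv : Layer v)
    (hlt : ∀ a ∈ v, a < n) : Cst n t v 2 := by
  have r0 := norm_nonneg t
  refine Cst.of_lt (K := 2 - ‖t‖) (by linarith) ?_ fun L M hM => layer_le ht hk hv hlt hM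
  have e1 : (2 - ‖t‖) * ‖t‖ < 1 := by nlinarith [mul_pos (sub_pos.2 ht) (sub_pos.2 ht)]
  have e2 : 0 ≤ (2 - ‖t‖) * ‖t‖ := mul_nonneg (by linarith) r0
  rw [← mul_pow]
  exact pow_lt_one₀ e2 e1 (by norm_num)

theorem Cst.letter (ht : ‖t‖ < 1) (hk : ‖1 - t‖ ≤ 2 * (1 - ‖t‖)) {a : ℕ} (ha : a < n) :
    Cst n t [a] 2 :=
  Cst.layer ht hk (List.pairwise_singleton _ _) (by simpa using ha)

theorem Cst.pair (ht : ‖t‖ < 1) (hk : ‖1 - t‖ ≤ 2 * (1 - ‖t‖))
    (hnum : (4 - 3 * ‖t‖ ^ n - 2 * (1 - ‖t‖) * n * ‖t‖ ^ n) ^ 2 * ‖t‖ ^ (n + 1) < 1)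
    {u v : List ℕ} (hu : ∀ a ∈ u, a < n) (hv : ∀ a ∈ v, a < n) (hu' : Once id u) (hv' : Once id v) :
    Cst n t (u ++ v) (n + 1) := by
  refine Cst.of_lt (K := AA ‖t‖ n) (zero_le_one.trans (one_le_AA (norm_nonneg t) ht.le n)) hnum
    fun L M hM j hj => ?_
  obtain ⟨c, hc, e⟩ := normal hu hu'
  obtain ⟨c', hc', e'⟩ := normal hv hv'
  have e2 := two_pass ht hk hc hc' hM j hj
  rw [run_append] at e2 ⊢
  rw [e, e']
  exact e2

/-- **No fixed vectors** from the costs. -/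
theorem caseB_cst (ht : ‖t‖ < 1) {p c : ℕ} (hp : 0 < p) {W : List ℕ} (hlt : ∀ a ∈ W, a < n)
    (h1 : Cst n t W c) (h2 : Cst n t ((flip n)^[p] W) c) (hc : c ≤ (n + 1) * p) {L : ℕ → ℂ}
    (h0 : L 0 = 0) (hn : ∀ j, n < j → L j = 0) (hfix : run t (tw n p ++ W) L = L) : L = 0 := by
  have hsq := run_square (t := t) hlt p h0 hn
  rw [run_append, hfix, hfix] at hsq
  obtain ⟨K, k0, k1, k2, k3⟩ := h2.append h1
  obtain ⟨j₀, hj₀, hmax⟩ := (Finset.range (n + 1)).exists_max_image (fun j => ‖gg t L j‖)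
    ⟨0, Finset.mem_range.2 (by omega)⟩
  have hM : ∀ j < n + 1, ‖gg t L j‖ ≤ ‖gg t L j₀‖ := fun j hj => hmax j (Finset.mem_range.2 hj)
  have h3 := k3 L _ hM j₀ (Finset.mem_range.1 hj₀)
  have r0 := norm_nonneg t
  have h4 : ‖gg t L j₀‖ ≤ (‖t‖ ^ ((n + 1) * p) * K) * ‖gg t L j₀‖ := by
    have e : gg t L j₀ = (t ^ (n + 1)) ^ p * gg t (run t ((flip n)^[p] W ++ W) L) j₀ := by
      conv_lhs => rw [hsq]
      exact gg_smul _ _ _
    calc ‖gg t L j₀‖ = ‖t‖ ^ ((n + 1) * p) * ‖gg t (run t ((flip n)^[p] W ++ W) L) j₀‖ := by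
          conv_lhs => rw [e, norm_mul, norm_pow, norm_pow, ← pow_mul]
      _ ≤ ‖t‖ ^ ((n + 1) * p) * (K * ‖gg t L j₀‖) := mul_le_mul_of_nonneg_left h3 (by positivity)
      _ = _ := by ring
  have h5 : ‖t‖ ^ ((n + 1) * p) * K < 1 := by
    have q1 : 0 < (n + 1) * p := by positivity
    have q2 : ‖t‖ ^ ((n + 1) * p) ≤ ‖t‖ ^ c := pow_le_pow_of_le_one r0 ht.le hc
    have q3 : 0 ≤ ‖t‖ ^ ((n + 1) * p) := by positivity
    have q4 : (‖t‖ ^ c * K) ^ 2 = K ^ 2 * ‖t‖ ^ (c + c) := by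
      rw [pow_add]
      ring
    rcases Nat.eq_zero_or_pos c with hc0 | hc0
    · subst hc0
      have q5 : ‖t‖ ^ ((n + 1) * p) < 1 := pow_lt_one₀ r0 ht (by omega)
      have q6 : K ≤ 1 := by
        rw [add_zero, pow_zero, mul_one] at k1
        nlinarith
      nlinarith
    · have q5 := k2 (by omega)
      rw [← q4] at q5
      have q6 : ‖t‖ ^ c * K < 1 := by nlinarith [mul_nonneg (pow_nonneg r0 c) k0]
      nlinarith
  have h6 : ‖gg t L j₀‖ = 0 := by
    have h7 := norm_nonneg (gg t L j₀)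
    nlinarith
  refine ext_gg (t := t) h0 rfl fun j => ?_
  have e0 : gg t (0 : ℕ → ℂ) j = 0 := by
    unfold gg
    simp
  rw [e0]
  rcases lt_or_ge j (n + 1) with hj | hj
  · exact norm_eq_zero.1 (le_antisymm ((hM j hj).trans h6.le) (norm_nonneg _))
  · unfold gg
    rw [hn j (by omega), hn (j + 1) (by omega), mul_zero, sub_zero]

end Pool.Agent.Helper49.GA
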