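import Pool.Agent.Helper49.GA.Cost
import Pool.Agent.Helper43.GA.Adm

/-!
# Words with letters, layers and pairs of permutation braids: the case of the differences
-/

set_option autoImplicit false

namespace Pool.Agent.Helper49.GA

open Pool.Agent.Helper69.LZ Pool.Agent.Helper30.GA Pool.Agent.Helper12.GA Pool.Agent.Helper85.GA
  Pool.Agent.Helper43.GA

variable {t : ℂ} {n : ℕ}

theorem iter_flip_append (p : ℕ) (u v : List ℕ) :
    (flip n)^[p] (u ++ v) = (flip n)^[p] u ++ (flip n)^[p] v := by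
  induction p with
  | zero => rfl
  | succ p ih => rw [Function.iterate_succ_apply', ih, flip_append, Function.iterate_succ_apply',
      Function.iterate_succ_apply']

theorem iter_flip_nil (p : ℕ) : (flip n)^[p] ([] : List ℕ) = [] := by
  induction p with
  | zero => rfl
  | succ p ih =>
    rw [Function.iterate_succ_apply', ih]
    rfl

theorem layer_flip {v : List ℕ} (hv : Layer v) (hlt : ∀ a ∈ v, a < n) : Layer (flip n v) := by
  unfold Layer Helper30.GA.flip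
  rw [List.pairwise_map]
  refine List.Pairwise.imp_of_mem (fun {a b} ha hb h => ?_) hv
  have h1 := hlt a ha
  have h2 := hlt b hb
  omega

theorem iter_layer_flip {v : List ℕ} (hv : Layer v) (hlt : ∀ a ∈ v, a < n) (p : ℕ) :
    Layer ((flip n)^[p] v) := by
  induction p with
  | zero => exact hv
  | succ p ih =>
    rw [Function.iterate_succ_apply']
    exact layer_flip ih (iter_flip_lt hlt p)

theorem cst_iter_layer (ht : ‖t‖ < 1) (hk : ‖1 - t‖ ≤ 2 * (1 - ‖t‖)) {v : List ℕ} (hv : Layer v)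
    (hlt : ∀ a ∈ v, a < n) (p : ℕ) : Cst n t ((flip n)^[p] v) 2 :=
  Cst.layer ht hk (iter_layer_flip hv hlt p) (iter_flip_lt hlt p)

theorem cst_iter_pair (ht : ‖t‖ < 1) (hk : ‖1 - t‖ ≤ 2 * (1 - ‖t‖))
    (hnum : (4 - 3 * ‖t‖ ^ n - 2 * (1 - ‖t‖) * n * ‖t‖ ^ n) ^ 2 * ‖t‖ ^ (n + 1) < 1)
    {u v : List ℕ} (hu : ∀ a ∈ u, a < n) (hv : ∀ a ∈ v, a < n) (hu' : Once id u) (hv' : Once id v)
    (p : ℕ) : Cst n t ((flip n)^[p] (u ++ v)) (n + 1) := by
  rw [iter_flip_append]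
  exact Cst.pair ht hk hnum (iter_flip_lt hu p) (iter_flip_lt hv p) (iter_once_flip hu hu' p)
    (iter_once_flip hv hv' p)

theorem cst_adm (ht : ‖t‖ < 1) (hk : ‖1 - t‖ ≤ 2 * (1 - ‖t‖))
    (hnum : (4 - 3 * ‖t‖ ^ n - 2 * (1 - ‖t‖) * n * ‖t‖ ^ n) ^ 2 * ‖t‖ ^ (n + 1) < 1)
    {W : List ℕ} {c : ℕ} (h : Adm n W c) (p : ℕ) : Cst n t ((flip n)^[p] W) c := by
  induction h with
  | nil =>
    rw [iter_flip_nil]
    exact Cst.nil
  | @layer v W c hv hl hW ih =>
    rw [iter_flip_append, add_comm c 2]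
    exact (cst_iter_layer ht hk hl hv p).append ih
  | @pair u v W c hu hv hu' hv' hW ih =>
    rw [← List.append_assoc, iter_flip_append, add_comm c (n + 1)]
    exact (cst_iter_pair ht hk hnum hu hv hu' hv' p).append ih

/-- **No fixed vectors**, the case of the differences. -/
theorem caseB_adm (ht : ‖t‖ < 1) (hk : ‖1 - t‖ ≤ 2 * (1 - ‖t‖))
    (hnum : (4 - 3 * ‖t‖ ^ n - 2 * (1 - ‖t‖) * n * ‖t‖ ^ n) ^ 2 * ‖t‖ ^ (n + 1) < 1) {p : ℕ}
    (hp : 0 < p) {W : List ℕ} {c : ℕ} (hW : Adm n W c) (hc : c ≤ (n + 1) * p) {L : ℕ → ℂ}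
    (h0 : L 0 = 0) (hn : ∀ j, n < j → L j = 0) (hfix : run t (tw n p ++ W) L = L) : L = 0 :=
  caseB_cst ht hp hW.lt (cst_adm ht hk hnum hW 0) (cst_adm ht hk hnum hW p) hc h0 hn hfix

end Pool.Agent.Helper49.GA
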